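import Pool.Agent.H.MP_0b8c1e_lc.D

set_option autoImplicit false

namespace Pool.Agent.Results.MP_0b8c1e_lc.No

open Pool.Agent.Lib.CX Pool.Agent.H.MP_0b8c1e_lc

theorem result : ∃ ε : ℝ, 0 < ε ∧ ∀ f : Gr → List ℕ, PT f →
    (∀ (a : Gr) (c : Fin a.n → ℕ), (1 - ε) * dens a.G c ≤ dens a.G fun v => (f a).getD v 0) →
    ∀ L : List Bool → Prop, InNP L → InP L :=
  main

end Pool.Agent.Results.MP_0b8c1e_lc.No
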